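import Pool.Agent.Work.MP_223b32_es.Interface
import Pool.Agent.Work.MP_223b32_tc_helper65.LE

/-!
# Zeros of irreducible polynomials
-/

namespace Pool.Agent.Work.ES

open Finset Polynomial Module

theorem stmt_ZER : Stmt_ZER := by
  intro F E _ _ _ _ _ _ G hm hi
  classical
  have key : ∀ y : E, aeval y G = 0 ↔ minpoly F y = G := by
    intro y
    constructor
    · intro h
      exact (minpoly.eq_of_irreducible_of_monic hi h hm).symm
    · rintro rfl
      exact minpoly.aeval F y
  by_cases hd : G.natDegree ∣ Module.finrank F E
  · rw [if_pos hd]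
    obtain ⟨x, hx⟩ := TC.LE.exists_root (F := F) (E := E) G hm hi hd
    have h := TC.LE.card_fiber (F := F) (E := E) x
    rw [hx] at h
    rw [← h]
    refine congrArg Finset.card ?_
    ext y
    simp only [mem_filter, mem_univ, true_and]
    exact key y
  · rw [if_neg hd, Finset.card_eq_zero]
    refine Finset.filter_eq_empty_iff.2 fun y _ h => hd ?_
    rw [← (key y).1 h]
    exact minpoly.degree_dvd (Algebra.IsIntegral.isIntegral y)

end Pool.Agent.Work.ES
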