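import Pool.Agent.Work.MP_223b32_es.Interface

/-!
# The polynomials `H(y)` are not squares
-/

namespace Pool.Agent.Work.ES

open Finset Polynomial Module

namespace SQF3

theorem card_zero (F : Type) {K : Type} [Field F] [Fintype F] [Field K] [Algebra F K] :
    (Fintype.card F : K) = 0 := by
  have : ((Fintype.card F : ℕ) : F) = 0 := Nat.cast_card_eq_zero F
  rw [← map_natCast (algebraMap F K), this, map_zero]

theorem three_ne {F K : Type} [Field F] [Fintype F] [Field K] [Algebra F K]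
    (hq : Fintype.card F % 6 = 1) : (3 : K) ≠ 0 := by
  intro h
  have h1 : (Fintype.card F : K) = 0 := card_zero F
  have h2 : Fintype.card F = 3 * (2 * (Fintype.card F / 6)) + 1 := by omega
  rw [h2] at h1
  push_cast at h1
  rw [h, zero_mul, zero_add] at h1
  exact one_ne_zero h1

section

variable {K : Type} [Field K] (ω κ : K)

theorem ev_false : (gg ω false).eval κ = 1 + κ + κ ^ 2 := by simp [gg]

theorem ev_true : (gg ω true).eval κ = 1 + ω * κ + ω ^ 2 * κ ^ 2 := by simp [gg]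

theorem dv_false : (derivative (gg ω false)).eval κ = 1 + 2 * κ := by
  have : derivative (gg ω false) = 1 + C 2 * X := by
    simp only [gg, Bool.false_eq_true, if_false, derivative_add, derivative_one, zero_add,
      derivative_X, derivative_X_pow]
    norm_num
  rw [this]
  simp

theorem dv_true : (derivative (gg ω true)).eval κ = ω + 2 * ω ^ 2 * κ := by
  have : derivative (gg ω true) = C ω + C (ω ^ 2) * (C 2 * X) := by
    simp only [gg, if_true, derivative_add, derivative_one, zero_add, derivative_C_mul,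
      derivative_X, mul_one, derivative_X_pow]
    norm_num
  rw [this]
  simp
  ring

theorem exists_kappa (h3 : (3 : K) ≠ 0) (hω : ω ^ 2 + ω + 1 = 0)
    (T : Finset Bool) (hT : T.Nonempty) :
    ∃ κ : K, κ ^ 2 + κ + 1 = 0 ∧ (∏ ε ∈ T, gg ω ε).eval κ = 0 ∧
      (derivative (∏ ε ∈ T, gg ω ε)).eval κ ≠ 0 := by
  have hT' : T = {false} ∨ T = {true} ∨ T = {false, true} := by
    revert T
    decide
  have hω3 : ω ^ 3 = 1 := by linear_combination (ω - 1) * hω
  rcases hT' with rfl | rfl | rfl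
  · refine ⟨ω, hω, ?_, ?_⟩
    · rw [prod_singleton, ev_false]
      linear_combination hω
    · rw [prod_singleton, dv_false]
      intro h
      apply h3
      linear_combination 4 * hω - (1 + 2 * ω) * h
  · refine ⟨ω, hω, ?_, ?_⟩
    · rw [prod_singleton, ev_true]
      linear_combination (ω ^ 2 - ω + 1) * hω
    · rw [prod_singleton, dv_true]
      intro h
      apply h3
      have h4 : ω + 2 = 0 := by linear_combination h - 2 * hω3
      linear_combination hω - (ω - 1) * h4
  · refine ⟨ω ^ 2, ?_, ?_, ?_⟩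
    · linear_combination (ω ^ 2 - ω + 1) * hω
    · rw [prod_pair (by decide), eval_mul, ev_false]
      have : 1 + ω ^ 2 + (ω ^ 2) ^ 2 = 0 := by linear_combination (ω ^ 2 - ω + 1) * hω
      rw [this, zero_mul]
    · rw [prod_pair (by decide), derivative_mul, eval_add, eval_mul, eval_mul, ev_false, dv_false,
        ev_true]
      have h0 : 1 + ω ^ 2 + (ω ^ 2) ^ 2 = 0 := by linear_combination (ω ^ 2 - ω + 1) * hω
      have h5 : 1 + ω * ω ^ 2 + ω ^ 2 * (ω ^ 2) ^ 2 = 3 := by
        linear_combination (2 + ω ^ 3) * hω3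
      rw [h0, zero_mul, add_zero, h5]
      refine mul_ne_zero ?_ h3
      intro h
      apply h3
      linear_combination (1 + 2 * ω) * h - 2 * hω - 4 * hω3

end

/-- A primitive root of unity whose power is a given primitive cube root of unity. -/
theorem exists_prim {Ω : Type} [Field Ω] {N : ℕ} (hN : 0 < N) (ζ : Ω)
    (hζ : IsPrimitiveRoot ζ (3 * N)) (κ : Ω) (hκ : κ ^ 2 + κ + 1 = 0) :
    ∃ v : Ω, IsPrimitiveRoot v (3 * N) ∧ v ^ N = κ := by
  have h1 : IsPrimitiveRoot (ζ ^ N) 3 := hζ.pow (by positivity) (mul_comm 3 N)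
  have h2 : (ζ ^ N) ^ 2 + ζ ^ N + 1 = 0 := by
    have h3 := h1.pow_eq_one
    have h4 : ζ ^ N ≠ 1 := h1.ne_one (by norm_num)
    have h5 : (ζ ^ N - 1) * ((ζ ^ N) ^ 2 + ζ ^ N + 1) = 0 := by linear_combination h3
    rcases mul_eq_zero.1 h5 with h | h
    · exact absurd (sub_eq_zero.1 h) h4
    · exact h
  have hκ3 : κ ^ 3 = 1 := by linear_combination (κ - 1) * hκ
  have h6 : (ζ ^ N - κ) * (ζ ^ N - κ ^ 2) = 0 := by
    linear_combination h2 - (ζ ^ N) * hκ + hκ3
  rcases mul_eq_zero.1 h6 with h | h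
  · exact ⟨ζ, hζ, sub_eq_zero.1 h⟩
  · refine ⟨ζ⁻¹, hζ.inv, ?_⟩
    rw [inv_pow, sub_eq_zero.1 h]
    rw [inv_eq_iff_eq_inv]
    refine eq_inv_of_mul_eq_one_left ?_
    rw [← hκ3]
    ring

theorem three_mul_div {q : ℕ} (hq : q % 6 = 1) (n : ℕ) : 3 * ((q ^ n - 1) / 3) = q ^ n - 1 := by
  have h : q ^ n % 3 = 1 := by
    rw [Nat.pow_mod, show q % 3 = 1 by omega, one_pow]
    rfl
  have := Nat.div_add_mod (q ^ n) 3
  omega

/-- The value of a factor of `H`. -/
theorem aeval_factor {K Ω : Type} [Field K] [Field Ω] [Algebra K Ω] {q : ℕ} (hq : q % 6 = 1)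
    (w₀ : K) (y v : Ω) (hv : v = algebraMap K Ω w₀ * y ^ 3) (n : ℕ) (g : K[X]) :
    aeval y (g.comp (C (w₀ ^ ((q ^ n - 1) / 3)) * X ^ (q ^ n - 1))) =
      aeval (v ^ ((q ^ n - 1) / 3)) g := by
  rw [aeval_comp]
  congr 1
  rw [map_mul, aeval_C, map_pow, map_pow, aeval_X, hv, mul_pow, ← pow_mul, three_mul_div hq n]

end SQF3

theorem stmt_SQF3 : Stmt_SQF3 := by
  intro F K _ _ _ _ _ hq ω w₀ hω hw₀ S hS hS1
  classical
  set q := Fintype.card F with hqdef
  have h3 : (3 : K) ≠ 0 := SQF3.three_ne hq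
  have hq0 : (q : K) = 0 := SQF3.card_zero F
  have hq1 : 1 < q := Fintype.one_lt_card
  rintro ⟨c, R, hR⟩
  -- the highest level
  obtain ⟨p₀, hp₀, hmax⟩ := S.exists_max_image Prod.fst hS
  set u := p₀.1 with hu
  have hu1 : 1 ≤ u := hS1 p₀ hp₀
  set T : Finset Bool := univ.filter fun ε => (u, ε) ∈ S with hT
  have hTne : T.Nonempty := ⟨p₀.2, by simp [hT, hu, hp₀]⟩
  obtain ⟨κ, hκ, hκ0, hκ1⟩ := SQF3.exists_kappa ω h3 hω T hTne
  let Ω := AlgebraicClosure K
  set M := (q ^ u - 1) / 3 with hM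
  have hM3 : 3 * M = q ^ u - 1 := SQF3.three_mul_div hq u
  have hqu : 1 < q ^ u := Nat.one_lt_pow (by omega) hq1
  have hMpos : 0 < M := by omega
  have hcast : ((3 * M : ℕ) : Ω) = -1 := by
    rw [hM3, Nat.cast_sub hqu.le]
    push_cast
    have : ((q : ℕ) : Ω) = 0 := by
      rw [← map_natCast (algebraMap K Ω), hq0, map_zero]
    rw [this, zero_pow (by omega), zero_sub]
  have : NeZero ((3 * M : ℕ) : Ω) := ⟨by rw [hcast]; exact neg_ne_zero.2 one_ne_zero⟩
  obtain ⟨ζ, hζ⟩ := HasEnoughRootsOfUnity.exists_primitiveRoot Ω (3 * M)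
  obtain ⟨v, hv, hvκ⟩ := SQF3.exists_prim hMpos ζ hζ (algebraMap K Ω κ) (by
    rw [← map_pow, ← map_add, ← map_one (algebraMap K Ω), ← map_add, hκ, map_zero])
  have hv0 : v ≠ 0 := hv.ne_zero (by omega)
  have hw : algebraMap K Ω w₀ ≠ 0 := by
    rwa [Ne, map_eq_zero]
  obtain ⟨y, hy⟩ := IsAlgClosed.exists_pow_nat_eq (v / algebraMap K Ω w₀) (n := 3) (by norm_num)
  have hvy : v = algebraMap K Ω w₀ * y ^ 3 := by
    rw [hy, mul_div_cancel₀ _ hw]
  have hy0 : y ≠ 0 := by
    rintro rfl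
    rw [zero_pow (by norm_num), mul_zero] at hvy
    exact hv0 hvy
  -- split the product
  set f : ℕ × Bool → K[X] := fun p =>
    (gg ω p.2).comp (C (w₀ ^ ((q ^ p.1 - 1) / 3)) * X ^ (q ^ p.1 - 1)) with hf
  have hHH : HH q ω w₀ S = ∏ p ∈ S, f p := rfl
  have hsplit : ∏ p ∈ S, f p = (∏ p ∈ S.filter (fun p => p.1 = u), f p) *
      ∏ p ∈ S.filter (fun p => ¬ p.1 = u), f p := (prod_filter_mul_prod_filter_not S _ _).symm
  have htop : ∏ p ∈ S.filter (fun p => p.1 = u), f p =
      (∏ ε ∈ T, gg ω ε).comp (C (w₀ ^ M) * X ^ (q ^ u - 1)) := by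
    rw [Polynomial.prod_comp]
    have : S.filter (fun p => p.1 = u) = T.image fun ε => (u, ε) := by
      ext ⟨a, b⟩
      simp only [mem_filter, mem_image, hT, mem_univ, true_and, Prod.mk.injEq]
      constructor
      · rintro ⟨h1, rfl⟩
        exact ⟨b, h1, rfl, rfl⟩
      · rintro ⟨e, h1, rfl, rfl⟩
        exact ⟨h1, rfl⟩
    rw [this, prod_image (by
      intro a _ b _ h
      simpa using h)]
  set L := ∏ p ∈ S.filter (fun p => ¬ p.1 = u), f p with hL
  -- the lower levels do not vanish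
  have hLne : aeval y L ≠ 0 := by
    rw [hL, map_prod]
    refine prod_ne_zero_iff.2 fun p hp => ?_
    rw [mem_filter] at hp
    have hpu : p.1 < u := lt_of_le_of_ne (hmax p hp.1) hp.2
    have hp1 : 1 ≤ p.1 := hS1 p hp.1
    rw [hf]
    simp only
    rw [SQF3.aeval_factor hq w₀ y v hvy]
    intro h
    set A := v ^ ((q ^ p.1 - 1) / 3) with hA
    have hA3 : A ^ 3 = 1 := by
      have hωΩ : (algebraMap K Ω ω) ^ 2 + algebraMap K Ω ω + 1 = 0 := by
        rw [← map_pow, ← map_add, ← map_one (algebraMap K Ω), ← map_add, hω, map_zero]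
      have hω3 : (algebraMap K Ω ω) ^ 3 = 1 := by
        linear_combination (algebraMap K Ω ω - 1) * hωΩ
      rcases hb : p.2 with _ | _
      · rw [hb] at h
        simp [gg] at h
        linear_combination (A - 1) * h
      · rw [hb] at h
        simp [gg] at h
        have : (algebraMap K Ω ω * A) ^ 3 = 1 := by
          linear_combination (algebraMap K Ω ω * A - 1) * h
        rw [mul_pow, hω3, one_mul] at this
        exact this
    rw [hA, ← pow_mul, mul_comm, SQF3.three_mul_div hq] at hA3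
    have hdvd := hv.dvd_of_pow_eq_one _ hA3
    have hlt : q ^ p.1 < q ^ u := Nat.pow_lt_pow_right hq1 hpu
    have hgt : 1 < q ^ p.1 := Nat.one_lt_pow (by omega) hq1
    have := Nat.le_of_dvd (by omega) hdvd
    omega
  -- the derivative
  have hder : aeval y (derivative (HH q ω w₀ S)) ≠ 0 := by
    rw [hHH, hsplit, htop, derivative_mul, map_add, map_mul, map_mul]
    have h0 : aeval y ((∏ ε ∈ T, gg ω ε).comp (C (w₀ ^ M) * X ^ (q ^ u - 1))) = 0 := by
      rw [hM, SQF3.aeval_factor hq w₀ y v hvy, ← hM, hvκ, aeval_algebraMap_apply_eq_algebraMap_eval,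
        hκ0, map_zero]
    rw [h0, zero_mul, add_zero]
    refine mul_ne_zero ?_ hLne
    rw [derivative_comp, map_mul]
    refine mul_ne_zero ?_ ?_
    · rw [derivative_C_mul, derivative_X_pow, ← hM3, map_mul, map_mul, aeval_C, map_pow,
        aeval_C, map_natCast, hcast, map_pow, aeval_X]
      exact mul_ne_zero (pow_ne_zero _ hw)
        (mul_ne_zero (neg_ne_zero.2 one_ne_zero) (pow_ne_zero _ hy0))
    · rw [hM, SQF3.aeval_factor hq w₀ y v hvy, ← hM, hvκ,
        aeval_algebraMap_apply_eq_algebraMap_eval]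
      rwa [Ne, map_eq_zero]
  have hval : aeval y (HH q ω w₀ S) = 0 := by
    rw [hHH, hsplit, htop, map_mul]
    have h0 : aeval y ((∏ ε ∈ T, gg ω ε).comp (C (w₀ ^ M) * X ^ (q ^ u - 1))) = 0 := by
      rw [hM, SQF3.aeval_factor hq w₀ y v hvy, ← hM, hvκ, aeval_algebraMap_apply_eq_algebraMap_eval,
        hκ0, map_zero]
    rw [h0, zero_mul]
  rw [hR] at hder hval
  rw [map_mul, aeval_C, map_pow] at hval
  rw [derivative_C_mul, derivative_pow, map_mul, map_mul, map_mul, aeval_C] at hder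
  rcases mul_eq_zero.1 hval with h | h
  · exact hder (by rw [h, zero_mul])
  · have h' : aeval y R = 0 := pow_eq_zero_iff (two_ne_zero) |>.1 h
    refine hder ?_
    simp [h']

end Pool.Agent.Work.ES
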